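import Pool.Agent.Q311.KO.AlgF
import Pool.Agent.H340R2.LW

/-!
# The period conjecture over arbitrary fields for `1`-motives: integrals of algebraic differentials of several variables
# and their exponentials, in bounded degree, at almost all points over all number fields

Let `u_1, …, u_n` and `w_k`, `k ∈ κ`, be analytic functions on a connected open subset `U` of the affine space with
coordinates indexed by the finite set `X`, whose differentials are closed `1`-forms with algebraic coefficients (algebraic
functions of the coordinates): integrals of the first, second and third kind, on any curves or semiabelian varieties,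
from a fixed point to an algebraic section over an algebraic variety with `U` as chart. The values of such functions at
algebraic points are periods of `1`-motives over number fields. The period conjecture of André and Grothendieck
predicts, for the `1`-motives `[ℤ → G_s]` obtained from these sections and for `[ℤ → 𝔾_m]`, `1 ↦ exp (w_k s)`, over the
field `k_s = ℚ̄(exp (w_k s))`, that the numbers `u_i(s)`, `exp (w_k s)` and `2 π i` are algebraically independent at the
algebraic points `s` outside the locus where the motivic Galois group gets smaller, if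

* no nontrivial linear combination of the `u_i` with constant coefficients is an algebraic function, and
* no nontrivial monomial in the functions `exp (w_k)` is an algebraic function.

We prove this up to bounds `ω T → ∞` for the degree and the size of the relations and the degree of the number fields, for
all points of height at most `T` outside few hypersurfaces of small degree. The coefficients of the relations may also
involve arbitrary complex constants `ξ`, for instance the periods of the varieties on which the integrals live. The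
functions `w_k` may be among the combinations of the `u_i`.

The proof rests on a theorem of Kolchin and Ostrowski for fields with several derivations: primitives and exponentials of
primitives over a field `F` are algebraically independent over `F` under the two conditions above.
-/

set_option autoImplicit false

open Filter NumberField Pool.Agent.Q311.MV Pool.Agent.Q311.KO
open Pool.Agent.Y890.MV (InnerM)

namespace Pool.Agent.Results.MP_12eca1_ag.AbelianIntegrals

/-- algebraic functions on `U`: roots of a nonzero polynomial with coefficients in `ℂ[x]` -/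
def Algebraic {X : Type} (U : Set (X → ℂ)) (h : (X → ℂ) → ℂ) : Prop :=
  ∃ R : Polynomial (MvPolynomial X ℂ), R ≠ 0 ∧ ∀ x ∈ U, (R.map (MvPolynomial.eval x)).eval (h x) = 0

/-- the function `u` is analytic on `U` and its partial derivatives are algebraic functions -/
def AlgebraicDifferential {X : Type} [Fintype X] [DecidableEq X] (U : Set (X → ℂ)) (u : (X → ℂ) → ℂ) : Prop :=
  AnalyticOnNhd ℂ u U ∧ ∀ j, Algebraic U (fun x => fderiv ℂ u x (Pi.single j 1))

/-- the number `2 π i` -/
noncomputable def tpi : ℂ := 2 * Real.pi * Complex.I

/-- the polynomial in the `y i`, of degree at most `k` in each of them, with the coefficients `∑ a, c l a * ξ a` -/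
noncomputable def value {ι : Type} [Fintype ι] [DecidableEq ι] {k : ℕ} (c : (ι → Fin (k + 1)) → Fin k → ℂ)
    (ξ : Fin k → ℂ) (y : ι → ℂ) : ℂ :=
  ∑ l : ι → Fin (k + 1), (∑ a, c l a * ξ a) * ∏ i, y i ^ (l i : ℕ)

/-- There is no nontrivial relation of degree at most `k` in each `y i` with coefficients of the form `∑ a, c l a * ξ a`,
and none with coefficients of the form `∑ a, c l a * (2 π i) ^ a` (that is between the `y i` and `2 π i`), where the `c l a`
are integers of `K` with all conjugates at most `T ^ k`. -/
def Independent {ι : Type} [Fintype ι] [DecidableEq ι] (k : ℕ) (K : Type) [Field K] [NumberField K] (io : K →+* ℂ)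
    (ξ : Fin k → ℂ) (T : ℝ) (y : ι → ℂ) : Prop :=
  ∀ c : (ι → Fin (k + 1)) → Fin k → 𝓞 K, (∀ l a (φ : K →+* ℂ), ‖φ (c l a : K)‖ ≤ T ^ k) →
    (value (fun l a => io (c l a : K)) ξ y = 0 → ∀ l, ∑ a, io (c l a : K) * ξ a = 0) ∧
    (value (fun l a => io (c l a : K)) (fun a => tpi ^ (a : ℕ)) y = 0 → ∀ l a, c l a = 0)

/-- the points with coordinates in `K` of height at most `T`, of norm at most `k` and at distance at least `1 / k` from the
complement of `U`, at which the numbers `f i s` are not independent -/
def Exceptional {X ι : Type} [Fintype X] [Fintype ι] [DecidableEq ι] (U : Set (X → ℂ)) (f : ι → (X → ℂ) → ℂ)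
    (k : ℕ) (K : Type) [Field K] [NumberField K] (io : K →+* ℂ) (ξ : Fin k → ℂ) (T : ℝ) : Set (X → K) :=
  {s | (∀ j, Y120.HtLe K T (s j)) ∧ (fun j => io (s j)) ∈ InnerM U k ∧
    ¬ Independent k K io ξ T (fun i => f i (fun j => io (s j)))}

/-- the powers of `2 π i` are independent over the algebraic numbers -/
theorem tpi_indep {k : ℕ} (K : Type) [Field K] [NumberField K] (io : K →+* ℂ) (c : Fin k → K)
    (h : ∑ a, io (c a) * tpi ^ (a : ℕ) = 0) : ∀ a, c a = 0 := by
  classical
  let p : Polynomial K := ∑ a : Fin k, Polynomial.monomial (a : ℕ) (c a)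
  have hp : Polynomial.eval₂ io tpi p = 0 := by
    rw [Polynomial.eval₂_finsetSum]
    rw [← h]
    refine Finset.sum_congr rfl fun a _ => ?_
    rw [Polynomial.eval₂_monomial]
  have htr : Transcendental ℚ tpi := by
    intro h1
    have h2 : IsAlgebraic ℚ (tpi ^ 2) := h1.pow 2
    have h3 : tpi ^ 2 = algebraMap ℚ ℂ (-4) * (Real.pi : ℂ) ^ 2 := by
      unfold tpi
      rw [mul_pow, mul_pow, Complex.I_sq]
      norm_num
    have h4 : (Real.pi : ℂ) ^ 2 = algebraMap ℚ ℂ (-4)⁻¹ * tpi ^ 2 := by
      rw [h3, ← mul_assoc, ← map_mul]
      norm_num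
    have h5 : IsAlgebraic ℚ ((Real.pi : ℂ) ^ 2) := by
      rw [h4]
      exact (isAlgebraic_algebraMap _).mul h2
    exact Pool.Agent.H340R2.LW.transcendental_pi_complex (h5.of_pow two_pos)
  have hp0 : p = 0 := by
    by_contra hne
    apply htr
    let _ : Algebra K ℂ := io.toAlgebra
    have h6 : IsAlgebraic K tpi := ⟨p, hne, hp⟩
    have : IsScalarTower ℚ K ℂ := IsScalarTower.of_algebraMap_eq fun q => by
      rw [eq_ratCast]
      exact (map_ratCast (algebraMap K ℂ) q).symm.trans (by rw [eq_ratCast])
    exact h6.restrictScalars ℚ
  intro a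
  have h7 : p.coeff (a : ℕ) = c a := by
    rw [Polynomial.finsetSum_coeff, Finset.sum_eq_single a]
    · rw [Polynomial.coeff_monomial, if_pos rfl]
    · intro b _ hb
      rw [Polynomial.coeff_monomial, if_neg (fun h8 => hb (Fin.ext h8))]
    · intro h8
      exact absurd (Finset.mem_univ a) h8
  rw [← h7, hp0, Polynomial.coeff_zero]

/-- Let `U` be a connected open subset of `ℂ ^ X` and let `u_1, …, u_n` and `w_k`, `k ∈ κ`, be analytic functions on `U` with
algebraic partial derivatives. We assume that no nontrivial linear combination of the `u_i` with complex coefficients and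
no nontrivial monomial in the functions `exp (w_k)` is an algebraic function. Then there is `ω → ∞` such that for all large
`T`, all number fields `K` of degree at most `ω T`, all embeddings and all complex numbers `ξ a`, `a < ω T`: the exceptional
points (those at which the numbers `exp (w_k s)` and `u_i s` are not independent) lie on at most `T ^ (1 / ω T)`
hypersurfaces of degree at most `T ^ (1 / ω T)`, and there are at most `T ^ (1 / ω T) * N ^ (|X| - 1)` of them, `N` being
the number of elements of `K` of height at most `T`. -/
theorem result {X κ : Type} [Fintype X] [DecidableEq X] [Nonempty X] [Fintype κ] [DecidableEq κ] (U : Set (X → ℂ))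
    (hU : IsPreconnected U) (hUo : IsOpen U) (hne : U.Nonempty) (n : ℕ) (u : Fin n → (X → ℂ) → ℂ)
    (w : κ → (X → ℂ) → ℂ) (hu : ∀ i, AlgebraicDifferential U (u i)) (hw : ∀ k, AlgebraicDifferential U (w k))
    (hlin : ∀ c : Fin n → ℂ, Algebraic U (fun x => ∑ i, c i * u i x) → c = 0)
    (hmult : ∀ m : κ → ℤ, Algebraic U (fun x => Complex.exp (∑ k, m k * w k x)) → m = 0) :
    ∃ (ω : ℝ → ℕ) (T₀ : ℝ), Tendsto ω atTop atTop ∧ Monotone ω ∧ ∀ T, T₀ ≤ T → 0 < ω T ∧
      ∀ (K : Type) [Field K] [NumberField K], Module.finrank ℚ K ≤ ω T → ∀ (io : K →+* ℂ) (ξ : Fin (ω T) → ℂ),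
        Y124.Cov ⌊T ^ ((ω T : ℝ)⁻¹)⌋₊ ⌊T ^ ((ω T : ℝ)⁻¹)⌋₊
          ((fun (s : X → K) j => io (s j)) ''
            Exceptional U (Sum.elim (fun k x => Complex.exp (w k x)) u) (ω T) K io ξ T) ∧
        (Exceptional U (Sum.elim (fun k x => Complex.exp (w k x)) u) (ω T) K io ξ T).Finite ∧
        ((Exceptional U (Sum.elim (fun k x => Complex.exp (w k x)) u) (ω T) K io ξ T).ncard : ℝ) ≤
          T ^ ((ω T : ℝ)⁻¹) * ({x : K | Y120.HtLe K T x}.ncard : ℝ) ^ (Fintype.card X - 1) := by
  classical
  have hind := indep_kol hU hUo hne u (fun i => (hu i).1) (fun i j => (hu i).2 j) w (fun k => (hw k).1)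
    (fun k j => (hw k).2 j) hlin hmult
  obtain ⟨ω, T₀, h1, h2, h3⟩ := Pool.Agent.Q311.MV.main hU hUo hne
    (an_elim (fun k => exp_an (hw k).1) (fun i => (hu i).1)) hind (fun _ a => tpi ^ (a : ℕ))
  refine ⟨ω, T₀, h1, h2, fun T hT => ⟨(h3 T hT).1, fun K _ _ hK io ξ => ?_⟩⟩
  obtain ⟨h4, h5, h6⟩ := (h3 T hT).2 K hK io ξ
  have hsub : Exceptional U (Sum.elim (fun k x => Complex.exp (w k x)) u) (ω T) K io ξ T ⊆
      {s : X → K | (∀ j, Y120.HtLe K T (s j)) ∧ (fun j => io (s j)) ∈ InnerM U (ω T) ∧
            ¬ (Free (ω T) K io ξ T
                (fun i => Sum.elim (fun k x => Complex.exp (w k x)) u i (fun j => io (s j))) ∧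
              Free (ω T) K io (fun a => tpi ^ (a : ℕ)) T
                (fun i => Sum.elim (fun k x => Complex.exp (w k x)) u i (fun j => io (s j))))} := by
    rintro s ⟨hs1, hs2, hs3⟩
    refine ⟨hs1, hs2, fun hf => hs3 fun c hc => ⟨fun hv => hf.1 c hc hv, fun hv => ?_⟩⟩
    intro l a
    have h7 := hf.2 c hc hv l
    have h8 := tpi_indep K io (fun a => (c l a : K)) h7 a
    exact_mod_cast h8
  exact ⟨h4.mono le_rfl le_rfl (Set.image_mono hsub), h5.subset hsub,
    le_trans (by exact_mod_cast Set.ncard_le_ncard hsub h5) h6⟩

end Pool.Agent.Results.MP_12eca1_ag.AbelianIntegrals
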