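import Pool.Agent.Q23.MV.HypPer
import Pool.Agent.Q23.MV.Third3
import Pool.Agent.Q23.MV.LinS

/-!
# The 1-motives `[ℤ^n → G]`, `G` an extension of the Jacobian of a hyperelliptic curve by `𝔾_m^m`, over arbitrary fields

Let `N = 2 g` be even and `C_e` the curve `y² = ∏ (x - e_r)` of genus `g` with the branch points `e_0, …, e_N` (and `∞`). Points
`A_k` of `C_e` with the abscissas `a_k`, `k < m`, define an extension `G` of the Jacobian `J` of `C_e` by `𝔾_m^m` (with the classes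
of `(a_k, y) - (a_k, -y)` in `J`), whose forms are `x^j dx / y`, `j < N`, and the forms of the third kind `dx / ((x - a_k) y)`, and
points of `C_e` with the abscissas `x_i`, `i < n`, define a 1-motive `M = [ℤ^n → G]`. Its periods are, besides `2 π i`, the complete
periods, and the integrals of all these forms up to the points. By the Riemann-Legendre relations all complete periods are
algebraic over `e`, `a`, `π`, the `g (2 g + 1)` periods of the forms `x^j dx / y` over `[e_l, e_(l + 1)]` with `j ≤ l`, and the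
integrals of these forms up to the points `A_k`. So the transcendence degree over `ℂ(e, a, x)` of the field of the period
functions is at most `g (2 g + 1) + 2 g (m + n) + m n`, and the dimension of the motivic Galois group of `M` at most one more.

Let `U` be a connected open set of points `z = (e, a, x)`, with branches on `U`. (1) The `g (2 g + 1) + 2 g (m + n) + m n`
functions are algebraically independent over `ℂ(e, a, x)`. (2) Let `ξ_1, …, ξ_s` be any complex numbers, not all zero. Then at the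
points `z = ∑ q_t ξ_t`, where the coordinates of the `q_t` are in a number field `F` of bounded degree and of height at most `T`,
that is, for the 1-motives over the field `k = F(ξ_1, …, ξ_s)` and its quadratic extensions, the values of the functions satisfy no
polynomial relation of bounded degree with coefficients `∑ ξ'_a c_a`, `c_a` in `F` of height at most `T^A`, for arbitrary complex
constants `ξ'_a` (for instance monomials in `π`, `ξ_1, …, ξ_s`), outside at most `C T^ε` hypersurfaces of bounded degree of the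
space of the `q`.
-/

set_option autoImplicit false

open Set Filter Topology NumberField

namespace Pool.Agent.Results.MP_12eca1_ag.OneMotivesWithTori

/-- The period `∫ x^j dx / √|∏ (x - e r)|` over the segment `[e l, e (l + 1)]`. -/
noncomputable def period {N : ℕ} (e : Fin (N + 1) → ℝ) (l j : Fin N) : ℝ :=
  ∫ x in (e l.castSucc)..(e l.succ), x ^ (j : ℕ) / √|∏ r, (x - e r)|

/-- The pairs `(l, j)` with `j ≤ l < N`; their number is `N (N + 1) / 2`. -/
abbrev Lower (N : ℕ) : Type := {k : Fin N × Fin N // k.2 ≤ k.1}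

/-- The branch points `e` of a point `z = (e, a, x)`. -/
def base {N m n : ℕ} (z : Fin (N + 1) ⊕ (Fin m ⊕ Fin n) → ℂ) : Fin (N + 1) → ℂ := fun r => z (Sum.inl r)

/-- On `U`, the set of the points `z = (e, a, x)`, the `a_k` are distinct and different from the `x_i`. For `p = a_k` and for
`p = x_i`, `y` is a continuous branch of `√(∏ (p - e_r))`, without zeros, and `v j` is analytic in `(e, p)` and is an integral of
`x^j dx / y` as a function of `x = p` (with integration constants depending on `e`). `h i k` is analytic in `(e, a_k, x_i)` and is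
an integral of `dx / ((x - a_k) y)` as a function of `x = x_i` (with integration constants depending on `e`, `a_k`). `w (l, j)`,
`j ≤ l`, is an analytic function of `e` which coincides with the period `∫ x^j dx / √|∏ (x - e r)|` over `[e l, e (l + 1)]` for
all real `e` in a neighbourhood of `e0`. -/
def Branches {N m n : ℕ} (U : Set (Fin (N + 1) ⊕ (Fin m ⊕ Fin n) → ℂ)) (e0 : Fin (N + 1) → ℝ)
    (y : Fin m ⊕ Fin n → (Fin (N + 1) → ℂ) → ℂ → ℂ) (v : Fin m ⊕ Fin n → Fin N → (Fin (N + 1) → ℂ) → ℂ → ℂ)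
    (h : Fin n → Fin m → (Fin (N + 1) → ℂ) → ℂ → ℂ → ℂ) (w : Lower N → (Fin (N + 1) → ℂ) → ℂ) : Prop :=
  (∀ z ∈ U, (∀ k k', z (Sum.inr (Sum.inl k)) = z (Sum.inr (Sum.inl k')) → k = k') ∧
    ∀ i k, z (Sum.inr (Sum.inr i)) ≠ z (Sum.inr (Sum.inl k))) ∧
  (∀ p, ContinuousOn (fun z : Fin (N + 1) ⊕ (Fin m ⊕ Fin n) → ℂ => y p (base z) (z (Sum.inr p))) U) ∧
  (∀ p j, AnalyticOnNhd ℂ (fun z : Fin (N + 1) ⊕ (Fin m ⊕ Fin n) → ℂ => v p j (base z) (z (Sum.inr p))) U) ∧
  (∀ z ∈ U, ∀ p, y p (base z) (z (Sum.inr p)) ≠ 0 ∧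
    y p (base z) (z (Sum.inr p)) ^ 2 = ∏ r, (z (Sum.inr p) - z (Sum.inl r)) ∧
    ∀ j, HasDerivAt (v p j (base z)) (z (Sum.inr p) ^ (j : ℕ) / y p (base z) (z (Sum.inr p))) (z (Sum.inr p))) ∧
  (∀ i k, AnalyticOnNhd ℂ (fun z : Fin (N + 1) ⊕ (Fin m ⊕ Fin n) → ℂ =>
    h i k (base z) (z (Sum.inr (Sum.inl k))) (z (Sum.inr (Sum.inr i)))) U) ∧
  (∀ z ∈ U, ∀ i k, HasDerivAt (h i k (base z) (z (Sum.inr (Sum.inl k))))
    (1 / ((z (Sum.inr (Sum.inr i)) - z (Sum.inr (Sum.inl k))) * y (Sum.inr i) (base z) (z (Sum.inr (Sum.inr i)))))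
    (z (Sum.inr (Sum.inr i)))) ∧
  (∀ k, AnalyticOnNhd ℂ (fun z : Fin (N + 1) ⊕ (Fin m ⊕ Fin n) → ℂ => w k (base z)) U) ∧
  ∀ᶠ e : Fin (N + 1) → ℝ in 𝓝 e0, ∀ k : Lower N, w k (fun r => (e r : ℂ)) = ((period e k.1.1 k.1.2 : ℝ) : ℂ)

/-- The functions of the point `z = (e, a, x)`: `v p j` (index `inl (inl (p, j))`), `h i k` (index `inl (inr (i, k))`) and `w k`
(index `inr k`). -/
noncomputable def value {N m n : ℕ} (v : Fin m ⊕ Fin n → Fin N → (Fin (N + 1) → ℂ) → ℂ → ℂ)
    (h : Fin n → Fin m → (Fin (N + 1) → ℂ) → ℂ → ℂ → ℂ) (w : Lower N → (Fin (N + 1) → ℂ) → ℂ) :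
    (((Fin m ⊕ Fin n) × Fin N) ⊕ (Fin n × Fin m)) ⊕ Lower N → (Fin (N + 1) ⊕ (Fin m ⊕ Fin n) → ℂ) → ℂ
  | Sum.inl (Sum.inl b), z => v b.1 b.2 (base z) (z (Sum.inr b.1))
  | Sum.inl (Sum.inr b), z => h b.1 b.2 (base z) (z (Sum.inr (Sum.inl b.2))) (z (Sum.inr (Sum.inr b.1)))
  | Sum.inr k, z => w k (base z)

/-- The point `z = ∑ q_t ξ_t`. -/
def point {X : Type} {s : ℕ} (ξ : Fin s → ℂ) (q : X × Fin s → ℂ) : X → ℂ := fun b => ∑ t, q (b, t) * ξ t

/-- For every compact subset `L` of `U` and all `m`, `g`, `d`, `A` and `ε > 0` there are `D`, `C`, `T₀` such that for every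
number field `F` of degree at most `m`, every embedding `ι` of `F` in `ℂ`, all complex numbers `ξ_1, …, ξ_g` and all
`T ≥ T₀` there are at most `C T^ε` hypersurfaces `Q = 0` of degree at most `D` with the following property. If `x` is a
point with coordinates in `F` outside these hypersurfaces, with image in `L`, whose coordinates are quotients of two
integers of `F` all of whose conjugates have absolute value at most `T`, then no nonzero polynomial `P` of degree at most
`d` in each variable, with coefficients of the form `∑ ξ_a ι(c_a)`, where the `c_a` are integers of `F` all of whose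
conjugates have absolute value at most `T ^ A`, vanishes at the numbers `f y (ι x)`. -/
def FewRelations {X κ : Type} [Fintype X] (U : Set (X → ℂ)) (f : κ → (X → ℂ) → ℂ) : Prop :=
  ∀ L : Set (X → ℂ), IsCompact L → L ⊆ U → ∀ (m g d : ℕ) (A ε : ℝ), 0 < ε →
    ∃ (D : ℕ) (C T₀ : ℝ), ∀ (F : Type) [Field F] [NumberField F], Module.finrank ℚ F ≤ m → ∀ (ι : F →+* ℂ)
      (ξ : Fin g → ℂ) (T : ℝ), T₀ ≤ T → ∃ Φ : Finset (MvPolynomial X ℂ), (Φ.card : ℝ) ≤ C * T ^ ε ∧
        (∀ Q ∈ Φ, Q ≠ 0 ∧ Q.totalDegree ≤ D) ∧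
        ∀ x : X → F, (fun j => ι (x j)) ∈ L →
          (∀ j, ∃ a b : 𝓞 F, b ≠ 0 ∧ (∀ φ : F →+* ℂ, ‖φ a‖ ≤ T ∧ ‖φ b‖ ≤ T) ∧ x j = a / b) →
          (∀ Q ∈ Φ, MvPolynomial.eval (fun j => ι (x j)) Q ≠ 0) →
          ∀ P : MvPolynomial κ ℂ, P ≠ 0 → (∀ y, P.degreeOf y ≤ d) →
            (∀ s, ∃ c : Fin g → 𝓞 F, (∀ a (φ : F →+* ℂ), ‖φ (c a)‖ ≤ T ^ A) ∧ P.coeff s = ∑ a, ξ a * ι (c a)) →
            MvPolynomial.aeval (fun y => f y (fun j => ι (x j))) P ≠ 0

open Pool.Agent.Q23.MV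

/-- the polynomial `∏ (X - e_r)` -/
noncomputable def pol {N : ℕ} (e : Fin (N + 1) → ℝ) : Polynomial ℝ := ∏ r, (Polynomial.X - Polynomial.C (e r))

theorem pol_eval {N : ℕ} (e : Fin (N + 1) → ℝ) (t : ℝ) : (pol e).eval t = ∏ r, (t - e r) := by
  rw [pol, Polynomial.eval_prod]
  simp

theorem pol_sq {N : ℕ} (e : Fin (N + 1) → ℝ) (he : StrictMono e) : Squarefree (pol e) ∧ N + 1 ≤ (pol e).natDegree := by
  constructor
  · refine Polynomial.Separable.squarefree ?_
    rw [pol]
    exact (Polynomial.separable_prod_X_sub_C_iff).2 he.injective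
  · rw [pol, Polynomial.natDegree_finsetProd_X_sub_C_eq_card]
    simp

/-- **The 1-motives `[ℤ^n → G]`.** Let `N` be even and let `U` be a connected open set of points `(e, a, x)` which contains a real
point `(e0, a0, x0)` with `e0_0 < ⋯ < e0_N` and `∏_r (p - e0_r) > 0` for all `p = a0_k` and `p = x0_i`, and let `y`, `v`, `h`, `w` be
branches on `U` as described under `Branches`. (1) No nonzero polynomial in the functions `v p j`, `h i k`, `w k` with coefficients in
`ℂ[e, a, x]` vanishes identically on `U`. (2) For all complex numbers `ξ_1, …, ξ_s`, not all zero, there are few relations between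
their values at the points `z = ∑ q_t ξ_t` in the sense of `FewRelations`. -/
theorem result : ∀ (N m n : ℕ), Even N → ∀ U : Set (Fin (N + 1) ⊕ (Fin m ⊕ Fin n) → ℂ), IsOpen U → IsPreconnected U →
    ∀ (e0 : Fin (N + 1) → ℝ) (a0 : Fin m → ℝ) (x0 : Fin n → ℝ), StrictMono e0 → (∀ k, 0 < ∏ r, (a0 k - e0 r)) →
      (∀ i, 0 < ∏ r, (x0 i - e0 r)) →
      Sum.elim (fun r => (e0 r : ℂ)) (Sum.elim (fun k => (a0 k : ℂ)) (fun i => (x0 i : ℂ))) ∈ U →
      ∀ (y : Fin m ⊕ Fin n → (Fin (N + 1) → ℂ) → ℂ → ℂ) (v : Fin m ⊕ Fin n → Fin N → (Fin (N + 1) → ℂ) → ℂ → ℂ)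
        (h : Fin n → Fin m → (Fin (N + 1) → ℂ) → ℂ → ℂ → ℂ) (w : Lower N → (Fin (N + 1) → ℂ) → ℂ), Branches U e0 y v h w →
        (∀ P : MvPolynomial ((((Fin m ⊕ Fin n) × Fin N) ⊕ (Fin n × Fin m)) ⊕ Lower N)
            (MvPolynomial (Fin (N + 1) ⊕ (Fin m ⊕ Fin n)) ℂ), P ≠ 0 →
          ∃ z ∈ U, MvPolynomial.eval₂ (MvPolynomial.eval z) (fun b => value v h w b z) P ≠ 0) ∧
        ∀ (s : ℕ) (ξ : Fin s → ℂ), (∃ t, ξ t ≠ 0) → FewRelations (point ξ ⁻¹' U) (fun b q => value v h w b (point ξ q)) := by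
  classical
  intro N m n hN U hU hUc e0 a0 x0 he0 ha0 hx0 h0 y v h w ⟨hUa, hy, hv, hyv, hh, hhd, hwa, hw⟩
  have hpt : H3.rp3 e0 a0 x0 ∈ U := h0
  have hpos : ∀ c0 : ℝ, 0 < ∏ r, (c0 - e0 r) →
      ∀ᶠ q : (Fin (N + 1) → ℝ) × ℝ in 𝓝 (e0, c0), 0 < (pol q.1).eval q.2 := by
    intro c0 h1
    have hc : Continuous fun q : (Fin (N + 1) → ℝ) × ℝ => ∏ r, (q.2 - q.1 r) :=
      continuous_finsetProd _ fun r _ => continuous_snd.sub ((continuous_apply r).comp continuous_fst)
    have h2 : ∀ᶠ q : (Fin (N + 1) → ℝ) × ℝ in 𝓝 (e0, c0), 0 < ∏ r, (q.2 - q.1 r) :=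
      hc.continuousAt.eventually (lt_mem_nhds (by exact h1))
    filter_upwards [h2] with q hq
    rw [pol_eval]
    exact hq
  have ind : ∀ p : MvPolynomial ((((Fin m ⊕ Fin n) × Fin N) ⊕ (Fin n × Fin m)) ⊕ Lower N)
      (MvPolynomial (Fin (N + 1) ⊕ (Fin m ⊕ Fin n)) ℂ),
      (∀ z ∈ U, Pool.Agent.Y890.MV.evM (value v h w) z p = 0) → p = 0 := by
    refine evM_of_AI U (value v h w) ?_
    have h1 := H3.hyp3_ind (p := N + 1) (m := m) (n := n) (N := N) (κ := Lower N) pol e0 a0 x0 (by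
      filter_upwards [strictMono_near e0 he0] with e he
      exact pol_sq e he) (fun k => hpos _ (ha0 k)) (fun i => hpos _ (hx0 i)) U hU hpt hUa y v h hy (fun μ a x hz => by
        refine ⟨fun k => ?_, fun i => ?_⟩
        · have h2 := (hyv _ hz (Sum.inl k)).2.1
          rw [pol_eval]
          push_cast
          exact h2
        · have h2 := (hyv _ hz (Sum.inr i)).2.1
          rw [pol_eval]
          push_cast
          exact h2) (fun p j z hz => (hyv z hz p).2.2 j) (fun i k z hz => hhd z hz i k) w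
      (fun P hP => per_ind hN e0 he0 w hw P hP)
    refine h1.congr fun b z _ => ?_
    rcases b with ((b | b) | k) | j <;> rfl
  refine ⟨fun P hP => ?_, ?_⟩
  · by_contra hcon
    push Not at hcon
    exact hP (ind P hcon)
  · rintro s ξ ⟨t0, ht0⟩ Lc hLc hLU m' g d A ε hε
    have hLam : (point ξ : (((Fin (N + 1) ⊕ (Fin m ⊕ Fin n)) × Fin s → ℂ) → _)) = LinS.Lam ξ := rfl
    have han : ∀ b, AnalyticOnNhd ℂ (value v h w b) U := by
      rintro ((b | b) | k)
      · exact hv b.1 b.2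
      · exact hh b.1 b.2
      · exact hwa k
    have : Nonempty ((Fin (N + 1) ⊕ (Fin m ⊕ Fin n)) × Fin s) := ⟨(Sum.inl 0, t0)⟩
    have hne : (point ξ ⁻¹' U).Nonempty := by
      refine ⟨LinS.Sec ξ t0 0 (H3.rp3 e0 a0 x0), ?_⟩
      show LinS.Lam ξ (LinS.Sec ξ t0 0 (H3.rp3 e0 a0 x0)) ∈ U
      rw [LinS.Lam_Sec ξ t0 ht0]
      exact hpt
    refine mvFew (U := point ξ ⁻¹' U) (f := fun b q => value v h w b (point ξ q)) (LinS.pre_conn ξ t0 ht0 U hUc)
      (hU.preimage (LinS.Lam_cont ξ)) hne (fun b q hq => ?_) (LinS.ind_lin ξ t0 ht0 U (value v h w) ind) Lc hLc hLU m' g d A ε hε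
    exact AnalyticAt.comp (g := value v h w b) (f := point ξ) (han b _ hq) (LinS.Lam_an ξ q)

end Pool.Agent.Results.MP_12eca1_ag.OneMotivesWithTori
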