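import Pool.Agent.Q229.RAE
import Pool.Agent.TH659.HY.Fun

/-!
# Integrals on hyperelliptic curves up to ALL points with rational abscissa near almost every real number

Let `f_j` be square-free real polynomials, positive on an open interval `D_j` containing `c_j`, and
`I_i(t) = ∫_c^t s^i ds / √f(s)`. For rational `q_j` in `D_j` the numbers `I_i(q_j)`, `i < k`, `k + 1 ≤ deg f_j`, are (for `f_j` and
`c_j` over `Q̄`) periods of the curves `y² = f_j(x)` with marked points with abscissas `c_j`, `q_j`; `k = deg f_j - 1` gives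
integrals of the first, second (and third) kind.

The starting file `HyperellipticIntegrals` bounds the number of the exceptional tuples of height `T` by `T^(2(n-1)+β)` for some
`β < 2` (one curve, one interval); with the counting theorem of `Pool.Agent.Y120.RealPolys` (`β` arbitrarily small) and coverings
we obtain all rational points near all real points outside a set of small Hausdorff dimension.
-/

set_option autoImplicit false

open MeasureTheory Filter Polynomial

namespace Pool.Agent.Results.MP_12eca1_ag.RationalsNearRealPoints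

/-- `I f c i t = ∫_c^t s^i ds / √f(s)`. -/
noncomputable def I (f : ℝ[X]) (c : ℝ) (i : ℕ) (t : ℝ) : ℝ := ∫ s in c..t, s ^ i / √(f.eval s)

/-- The `1 + n k` numbers `π` and `I_i(q_j)`, `0 ≤ i < k`, for the polynomials `f_j` and base points `c_j`. -/
noncomputable def numbers {n : ℕ} (k : ℕ) (f : Fin n → ℝ[X]) (c : Fin n → ℝ) (q : Fin n → ℚ)
    (z : Option (Fin n × Fin k)) : ℝ :=
  match z with
  | none => Real.pi
  | some (j, i) => I (f j) (c j) (i : ℕ) (q j)

/-- **Theorem.** Let `n ≥ 1`, let `f_j` be square-free real polynomials of degree at least `k + 1`, positive on the open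
interval `D_j`, `c_j ∈ D_j`, and consider the numbers `π`, `I_i(q_j)`, `i < k` (domain: `x_j ∈ D_j`). Then for every `τ > 0` there is a set `Z ⊂ ℝ^n` of Hausdorff dimension at most
`2 (n - 1) / τ` (dimension `0` for `n = 1`), and of Lebesgue measure zero if `2 (n - 1) < n τ`, such that for all `x ∉ Z` in the domain,
all `d`, `A`, some `B` and all sufficiently large `T` the following holds for ALL rational points `q` with denominators at most `T`
and `|x_j - q_j| ≤ T ^ (-τ)`: every nonzero integer polynomial of degree at most `d` in each variable with coefficients at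
most `T ^ A` takes at these numbers a value larger than `T ^ (-B)` in absolute value. -/
theorem result (n k : ℕ) (hn : 1 ≤ n) (f : Fin n → ℝ[X]) (hf : ∀ j, Squarefree (f j))
    (hk : ∀ j, k + 1 ≤ (f j).natDegree) (D : Fin n → Set ℝ) (hD : ∀ j, IsOpen (D j)) (hDc : ∀ j, (D j).OrdConnected)
    (hpos : ∀ j, ∀ t ∈ D j, 0 < (f j).eval t) (c : Fin n → ℝ) (hc : ∀ j, c j ∈ D j) (τ : ℝ) (hτ : 0 < τ) :
    ∃ Z : Set (Fin n → ℝ), dimH Z ≤ ENNReal.ofReal (2 * ((n : ℝ) - 1) / τ) ∧
      (2 * ((n : ℝ) - 1) < n * τ → volume Z = 0) ∧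
      ∀ x : Fin n → ℝ, (∀ j, x j ∈ D j) → x ∉ Z → ∀ (d : ℕ) (A : ℝ), ∃ B : ℝ, ∀ᶠ T : ℝ in atTop,
        ∀ q : Fin n → ℚ, (∀ j, ((q j).den : ℝ) ≤ T ∧ |x j - q j| ≤ T ^ (-τ)) →
        ∀ P : MvPolynomial (Option (Fin n × Fin k)) ℤ, P ≠ 0 → (∀ z, P.degreeOf z ≤ d) →
          (∀ u, |((P.coeff u : ℤ) : ℝ)| ≤ T ^ A) → T ^ (-B) < |MvPolynomial.aeval (numbers k f c q) P| := by
  have hbig : ∀ j, ∀ a b : ℝ, Set.Icc a b ⊆ D j → a ≤ b → ∃ a' b' : ℝ, a' < b' ∧ a' ≤ a ∧ b ≤ b' ∧ c j ∈ Set.Icc a' b' ∧
      Set.Icc a' b' ⊆ D j := by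
    intro j a b hsub hab
    obtain ⟨ε, hε, hball⟩ := Metric.isOpen_iff.1 (hD j) (c j) (hc j)
    refine ⟨min a (c j), max b (c j + ε / 2), ?_, min_le_left _ _, le_max_left _ _, ⟨min_le_right _ _, ?_⟩, ?_⟩
    · exact (min_le_right _ _).trans_lt ((by linarith : c j < c j + ε / 2).trans_le (le_max_right _ _))
    · exact le_trans (by linarith) (le_max_right _ _)
    · have h1 : min a (c j) ∈ D j := by
        rcases min_choice a (c j) with h | h
        · rw [h]; exact hsub ⟨le_rfl, hab⟩
        · rw [h]; exact hc j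
      have h2 : max b (c j + ε / 2) ∈ D j := by
        rcases max_choice b (c j + ε / 2) with h | h
        · rw [h]; exact hsub ⟨hab, le_rfl⟩
        · rw [h]
          refine hball ?_
          rw [Metric.mem_ball, Real.dist_eq, add_sub_cancel_left, abs_of_pos (by linarith)]
          linarith
      exact (hDc j).out h1 h2
  have han : ∀ j (i : Fin k), AnalyticOnNhd ℝ (fun t : ℝ => TH659.HY.HI (f j) (c j) (i : ℕ) t) (D j) := by
    intro j i t ht
    obtain ⟨a', b', h1, h2, h3, h4, h5⟩ := hbig j t t (fun y hy => by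
      rw [le_antisymm hy.2 hy.1]
      exact ht) le_rfl
    obtain ⟨ε, hε, hen⟩ := TH659.HY.enlarge (f j) a' b' h1.le (fun s hs => hpos j s (h5 hs))
    exact TH659.HY.HI_an (f j) (a' - ε) (b' + ε) (fun s hs => hen s ⟨hs.1.le, hs.2.le⟩) (c j)
      ⟨by linarith [h4.1], by linarith [h4.2]⟩ i t ⟨by linarith, by linarith⟩
  refine Pool.Agent.Q229.RA.masterOR hn (fun j (i : Fin k) t => TH659.HY.HI (f j) (c j) (i : ℕ) t) D hD han ?_
    (fun q => numbers k f c q) (fun _ => rfl) (fun _ _ _ _ => rfl) τ hτ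
  intro j a b hab hsub
  obtain ⟨a', b', h1, h2, h3, h4, h5⟩ := hbig j a b hsub hab.le
  refine Pool.Agent.Q229.RA.aind_of (hDc j).isPreconnected (han j) hab hsub h5 fun d => ?_
  exact TH659.HY.HI_ind (f j) (hf j) k d (hk j) a' b' h1 (fun t ht => hpos j t (h5 ht)) (c j) h4

end Pool.Agent.Results.MP_12eca1_ag.RationalsNearRealPoints
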